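import Mathlib

/-! # Sums of few elements of a set with bounded gaps of power type (helper70)

`Gap κ K x₀ A` : below every real `x ≥ x₀` there is an element of `A` at distance at most `K x ^ (1 - κ)`.
`Rep A s m` : `m` is a sum of at most `s` elements of `A`. -/

set_option autoImplicit false

open Finset

namespace Pool.Agent.K3h70.WA

/-- below every real `x ≥ x₀` there is an element of `A` at distance at most `K x ^ (1 - κ)` -/
def Gap (κ K x₀ : ℝ) (A : Set ℕ) : Prop :=
  ∀ x : ℝ, x₀ ≤ x → ∃ a ∈ A, x - K * x ^ (1 - κ) ≤ (a : ℝ) ∧ (a : ℝ) ≤ x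

/-- `m` is a sum of at most `s` elements of `A` -/
def Rep (A : Set ℕ) (s m : ℕ) : Prop :=
  ∃ l : List ℕ, (∀ a ∈ l, a ∈ A) ∧ l.length ≤ s ∧ l.sum = m

lemma Rep.zero (A : Set ℕ) (s : ℕ) : Rep A s 0 := ⟨[], by simp, by simp, by simp⟩

lemma Rep.add {A : Set ℕ} {s t m n : ℕ} (h1 : Rep A s m) (h2 : Rep A t n) : Rep A (s + t) (m + n) := by
  obtain ⟨l, h3, h4, h5⟩ := h1
  obtain ⟨l', h3', h4', h5'⟩ := h2
  refine ⟨l ++ l', ?_, ?_, ?_⟩
  · intro a ha
    rcases List.mem_append.1 ha with h | h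
    · exact h3 a h
    · exact h3' a h
  · rw [List.length_append]; omega
  · rw [List.sum_append, h5, h5']

lemma Rep.one {A : Set ℕ} {a : ℕ} (h : a ∈ A) : Rep A 1 a := ⟨[a], by simpa using h, by simp, by simp⟩

lemma Rep.mono {A : Set ℕ} {s t m : ℕ} (h : Rep A s m) (hst : s ≤ t) : Rep A t m := by
  obtain ⟨l, h3, h4, h5⟩ := h
  exact ⟨l, h3, h4.trans hst, h5⟩

/-- the greedy algorithm: `t` steps -/
lemma greedy {κ K x₀ : ℝ} {A : Set ℕ} (hκ : 0 < κ) (hκ1 : κ ≤ 1) (hK : 1 ≤ K) (hA : Gap κ K x₀ A)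
    (N : ℝ) (hN0 : 0 < N) (hN : x₀ ≤ N) (n : ℕ) (t : ℕ) :
    ∃ u : ℕ, Rep A t u ∧ u ≤ n ∧
      ((n : ℝ) - u ≤ N ∨ (n : ℝ) - u ≤ K ^ ((1 - (1 - κ) ^ t) / κ) * (n : ℝ) ^ ((1 - κ) ^ t)) := by
  induction t with
  | zero =>
    refine ⟨0, Rep.zero A 0, Nat.zero_le _, Or.inr ?_⟩
    simp
  | succ t ih =>
    obtain ⟨u, hu, hun, h⟩ := ih
    rcases h with h | h
    · exact ⟨u, hu.mono (by omega), hun, Or.inl h⟩
    · rcases le_or_gt ((n : ℝ) - u) N with h' | h'
      · exact ⟨u, hu.mono (by omega), hun, Or.inl h'⟩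
      · obtain ⟨a, ha, h1, h2⟩ := hA ((n : ℝ) - u) (hN.trans h'.le)
        have hau : a + u ≤ n := by
          have : (a : ℝ) + u ≤ n := by linarith
          exact_mod_cast this
        refine ⟨a + u, ?_, hau, Or.inr ?_⟩
        · have := (Rep.one ha).add hu
          rwa [add_comm 1 t] at this
        · have hr0 : 0 < (n : ℝ) - u := hN0.trans h'
          have h3 : (n : ℝ) - (a + u : ℕ) ≤ K * ((n : ℝ) - u) ^ (1 - κ) := by
            push_cast
            linarith
          refine h3.trans ?_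
          have h4 : ((n : ℝ) - u) ^ (1 - κ) ≤
              (K ^ ((1 - (1 - κ) ^ t) / κ) * (n : ℝ) ^ ((1 - κ) ^ t)) ^ (1 - κ) :=
            Real.rpow_le_rpow hr0.le h (by linarith)
          have hK0 : 0 < K := by linarith
          have hn0 : (0 : ℝ) ≤ n := by positivity
          rw [Real.mul_rpow (by positivity) (by positivity), ← Real.rpow_mul hK0.le,
            ← Real.rpow_mul hn0] at h4
          calc K * ((n : ℝ) - u) ^ (1 - κ)
              ≤ K * (K ^ ((1 - (1 - κ) ^ t) / κ * (1 - κ)) * (n : ℝ) ^ ((1 - κ) ^ t * (1 - κ))) :=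
                mul_le_mul_of_nonneg_left h4 hK0.le
            _ = (K ^ (1 : ℝ) * K ^ ((1 - (1 - κ) ^ t) / κ * (1 - κ))) *
                  (n : ℝ) ^ ((1 - κ) ^ t * (1 - κ)) := by rw [Real.rpow_one]; ring
            _ = K ^ ((1 - (1 - κ) ^ (t + 1)) / κ) * (n : ℝ) ^ ((1 - κ) ^ (t + 1)) := by
                rw [← Real.rpow_add hK0, ← pow_succ]
                congr 2
                field_simp
                ring

open Classical in
/-- the number of the integers in `[0, N]` which are sums of at most `s` elements of `A` -/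
noncomputable def cnt (A : Set ℕ) (s : ℕ) (N : ℝ) : ℕ :=
  ((range (⌊N⌋₊ + 1)).filter (fun m => Rep A s m)).card

/-- many integers are sums of `s` elements -/
lemma count {κ K x₀ : ℝ} (hκ : 0 < κ) (hκ1 : κ < 1) (hK : 1 ≤ K) (s : ℕ) :
    ∃ c : ℝ, 0 < c ∧ ∃ N₀ : ℝ, ∀ A : Set ℕ, Gap κ K x₀ A → ∀ N : ℝ, N₀ ≤ N →
      c * N ^ (1 - (1 - κ) ^ s) ≤ cnt A s N := by
  classical
  induction s with
  | zero =>
    refine ⟨1, one_pos, 1, fun A _ N hN => ?_⟩
    have h1 : 1 ≤ cnt A 0 N := by
      unfold cnt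
      rw [Nat.one_le_iff_ne_zero, Finset.card_ne_zero]
      exact ⟨0, mem_filter.2 ⟨by simp, Rep.zero A 0⟩⟩
    simp only [pow_zero, sub_self, Real.rpow_zero, mul_one]
    exact_mod_cast h1
  | succ s ih =>
    obtain ⟨c, hc, N₀, ih⟩ := ih
    have hK0 : 0 < K := by linarith
    -- `N` large
    refine ⟨c / (16 * (K + 1)), by positivity, ?_⟩
    have hlarge : ∃ N₁ : ℝ, ∀ N : ℝ, N₁ ≤ N → 1 ≤ N ∧ 2 * x₀ ≤ N ∧
        N₀ ≤ N ^ (1 - κ) ∧ 16 * (K + 1) ≤ N ^ κ ∧ K * N ^ (1 - κ) ≤ N / 4 := by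
      have e1 := (tendsto_rpow_atTop hκ).eventually_ge_atTop (16 * (K + 1))
      have e3 := Filter.eventually_ge_atTop (max 1 (2 * x₀))
      have e4 : ∀ᶠ N : ℝ in Filter.atTop, N₀ ≤ N ^ (1 - κ) :=
        (tendsto_rpow_atTop (by linarith : 0 < 1 - κ)).eventually_ge_atTop N₀
      obtain ⟨N₁, hN₁⟩ := Filter.eventually_atTop.1 (e1.and (e3.and e4))
      refine ⟨N₁, fun N hN => ?_⟩
      obtain ⟨h1, h2, h3⟩ := hN₁ N hN
      have hN1 : 1 ≤ N := (le_max_left _ _).trans h2
      refine ⟨hN1, (le_max_right _ _).trans h2, h3, h1, ?_⟩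
      have h5 : N ^ (1 - κ) * N ^ κ = N := by
        rw [← Real.rpow_add (by linarith), sub_add_cancel, Real.rpow_one]
      have h6 : 0 < N ^ (1 - κ) := Real.rpow_pos_of_pos (by linarith) _
      nlinarith
    obtain ⟨N₁, hN₁⟩ := hlarge
    refine ⟨N₁, fun A hA N hN => ?_⟩
    obtain ⟨hN1, hx0, hN0, hNκ, hK4⟩ := hN₁ N hN
    have hNpos : 0 < N := by linarith
    set M : ℝ := N ^ (1 - κ) with hM
    have hM0 : 0 < M := Real.rpow_pos_of_pos hNpos _
    have hMN : M * N ^ κ = N := by
      rw [hM, ← Real.rpow_add hNpos, sub_add_cancel, Real.rpow_one]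
    set L : ℝ := (K + 1) * M with hL
    have hL0 : 0 < L := by positivity
    set I : ℕ := ⌊N / (8 * L)⌋₊ with hI
    have hI1 : N / (8 * L) = N ^ κ / (8 * (K + 1)) := by
      rw [hL, div_eq_div_iff (by positivity) (by positivity)]
      linear_combination (-8 * (K + 1)) * hMN
    have hI2 : N ^ κ / (16 * (K + 1)) ≤ I := by
      have h1 : 2 ≤ N / (8 * L) := by
        rw [hI1, le_div_iff₀ (by positivity)]
        linarith
      have h2 : N / (8 * L) - 1 < I := Nat.sub_one_lt_floor _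
      have h3 : N ^ κ / (16 * (K + 1)) = N / (8 * L) / 2 := by
        rw [hI1]; field_simp; ring
      rw [h3]
      linarith
    have hI3 : (I : ℝ) * (8 * L) ≤ N := by
      have h1 : (I : ℝ) ≤ N / (8 * L) := Nat.floor_le (by positivity)
      rwa [le_div_iff₀ (by positivity)] at h1
    -- the grid
    have hgrid : ∀ i : ℕ, ∃ a ∈ A, N / 2 + 2 * L * i - K * (N / 2 + 2 * L * i) ^ (1 - κ) ≤ (a : ℝ) ∧
        (a : ℝ) ≤ N / 2 + 2 * L * i := by
      intro i
      apply hA
      have : 0 ≤ 2 * L * i := by positivity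
      linarith
    choose a haA ha1 ha2 using hgrid
    have ha3 : ∀ i : ℕ, i < I → N / 2 + 2 * L * i - K * M ≤ a i := by
      intro i hi
      refine le_trans ?_ (ha1 i)
      have h1 : N / 2 + 2 * L * i ≤ N := by
        have : (i : ℝ) ≤ I := by exact_mod_cast hi.le
        nlinarith
      have h2 : (N / 2 + 2 * L * i) ^ (1 - κ) ≤ M :=
        Real.rpow_le_rpow (by positivity) h1 (by linarith)
      nlinarith
    have hLM : L = K * M + M := by rw [hL]; ring
    -- distinctness
    have hsep : ∀ i j : ℕ, i < j → j < I → (a i : ℝ) + M < a j := by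
      intro i j hij hj
      have h1 := ha2 i
      have h2 := ha3 j hj
      have h3 : (i : ℝ) + 1 ≤ j := by exact_mod_cast hij
      nlinarith
    have hcount : I * cnt A s M ≤ cnt A (s + 1) N := by
      unfold cnt
      rw [← Finset.card_range I, ← Finset.card_product]
      apply Finset.card_le_card_of_injOn (fun p => a p.1 + p.2)
      · rintro ⟨i, r⟩ hp
        simp only [Finset.coe_product, Set.mem_prod, Finset.mem_coe, mem_range, mem_filter] at hp
        obtain ⟨hi, hr, hrep⟩ := hp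
        simp only [Finset.coe_filter, Set.mem_ofPred_eq, mem_range]
        constructor
        · have h1 : ((a i + r : ℕ) : ℝ) ≤ N := by
            push_cast
            have h2 := ha2 i
            have h3 : (r : ℝ) ≤ M := by
              have : r ≤ ⌊M⌋₊ := by omega
              exact (Nat.le_floor_iff hM0.le).1 this
            have h4 : (i : ℝ) ≤ I := by exact_mod_cast hi.le
            have h5 : M ≤ N / 4 := by nlinarith
            nlinarith
          have := Nat.le_floor h1
          omega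
        · have := (Rep.one (haA i)).add hrep
          rwa [add_comm 1 s] at this
      · rintro ⟨i, r⟩ hp ⟨j, r'⟩ hq heq
        simp only [Finset.coe_product, Set.mem_prod, Finset.mem_coe, mem_range, mem_filter] at hp hq
        obtain ⟨hi, hr, -⟩ := hp
        obtain ⟨hj, hr', -⟩ := hq
        simp only at heq
        have h3 : (r : ℝ) ≤ M := (Nat.le_floor_iff hM0.le).1 (by omega)
        have h3' : (r' : ℝ) ≤ M := (Nat.le_floor_iff hM0.le).1 (by omega)
        have h4 : (a i : ℝ) + r = a j + r' := by exact_mod_cast heq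
        have hr0 : (0 : ℝ) ≤ r := by positivity
        have hr0' : (0 : ℝ) ≤ r' := by positivity
        rcases lt_trichotomy i j with h | h | h
        · have := hsep i j h hj
          linarith
        · subst h
          simp only [Prod.mk.injEq, true_and]
          omega
        · have := hsep j i h hi
          linarith
    have hcM : c * M ^ (1 - (1 - κ) ^ s) ≤ cnt A s M := ih A hA M hN0
    calc c / (16 * (K + 1)) * N ^ (1 - (1 - κ) ^ (s + 1))
        = (N ^ κ / (16 * (K + 1))) * (c * M ^ (1 - (1 - κ) ^ s)) := by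
          rw [hM, ← Real.rpow_mul hNpos.le]
          have : 1 - (1 - κ) ^ (s + 1) = κ + (1 - κ) * (1 - (1 - κ) ^ s) := by rw [pow_succ]; ring
          rw [this, Real.rpow_add hNpos]
          ring
      _ ≤ I * cnt A s M := mul_le_mul hI2 hcM (by positivity) (by positivity)
      _ ≤ cnt A (s + 1) N := by exact_mod_cast hcount

end Pool.Agent.K3h70.WA
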