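import Mathlib
import Pool.Agent.Y868.TG.B1

/-! # A set of integers meets at most half of the classes of few primes (helper70) -/

set_option autoImplicit false

open Finset

namespace Pool.Agent.K3h70.WA

open Pool.Agent.Helper112 (ee additive_large_sieve ls_ee_zero)
open Pool.Agent.Y868.TG (parseval_classes Tf fractions)

open Classical in
/-- the indicator function of `R` -/
noncomputable def ind (R : Finset ℕ) : ℕ → ℂ := fun n => if n ∈ R then 1 else 0

lemma sum_ind (R : Finset ℕ) (N : ℕ) (hR : R ⊆ Icc 1 N) : ∑ n ∈ Icc 1 N, ‖ind R n‖ ^ 2 = R.card := by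
  classical
  have h1 : ∀ n ∈ Icc 1 N, ‖ind R n‖ ^ 2 = if n ∈ R then (1 : ℝ) else 0 := by
    intro n _
    unfold ind
    split_ifs <;> simp
  rw [Finset.sum_congr rfl h1, ← Finset.sum_filter, Finset.sum_const]
  have h2 : (Icc 1 N).filter (fun n => n ∈ R) = R := by
    ext n
    simp only [mem_filter]
    exact ⟨fun h => h.2, fun h => ⟨hR h, h⟩⟩
  rw [h2]
  simp

lemma sum_ind' (R : Finset ℕ) (N : ℕ) (hR : R ⊆ Icc 1 N) (p : ℕ → Prop) [DecidablePred p] :
    ∑ n ∈ (Icc 1 N).filter p, ind R n = ((R.filter p).card : ℂ) := by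
  classical
  have h1 : ∀ n ∈ (Icc 1 N).filter p, ind R n = if n ∈ R then (1 : ℂ) else 0 := by
    intro n _
    unfold ind
    split_ifs <;> simp
  rw [Finset.sum_congr rfl h1, ← Finset.sum_filter, Finset.sum_const]
  have h2 : ((Icc 1 N).filter p).filter (fun n => n ∈ R) = R.filter p := by
    ext n
    simp only [mem_filter]
    exact ⟨fun h => ⟨h.2, h.1.2⟩, fun h => ⟨⟨hR h.1, h.2⟩, h.1⟩⟩
  rw [h2]
  simp

/-- a prime at which `R` meets at most half of the classes has a large mean square -/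
lemma Tf_ge (R : Finset ℕ) (N : ℕ) (hR : R ⊆ Icc 1 N) (q : ℕ) (hq : q.Prime)
    (hW : 2 * (R.image (fun n => n % q)).card ≤ q) : (R.card : ℝ) ^ 2 ≤ Tf N (ind R) q := by
  classical
  have h1 := parseval_classes q N hq.one_lt.le (ind R)
  rw [fractions q N hq.one_lt.le (ind R), hq.divisors] at h1
  rw [Finset.sum_pair hq.one_lt.ne] at h1
  have h2 : Tf N (ind R) 1 = (R.card : ℝ) ^ 2 := by
    unfold Tf
    have h3 : (range 1).filter (fun a => a.Coprime 1) = {0} := by
      ext a
      simp only [mem_filter, mem_range, mem_singleton]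
      constructor
      · rintro ⟨h, -⟩; omega
      · rintro rfl; exact ⟨by norm_num, by simp⟩
    rw [h3, Finset.sum_singleton]
    have h4 : ∑ n ∈ Icc 1 N, ind R n * ee ((n : ℝ) * ((0 : ℕ) : ℝ) / ((1 : ℕ) : ℝ)) =
        ((R.card : ℕ) : ℂ) := by
      have h5 : ∀ n ∈ Icc 1 N, ind R n * ee ((n : ℝ) * ((0 : ℕ) : ℝ) / ((1 : ℕ) : ℝ)) = ind R n := by
        intro n _
        simp [ls_ee_zero]
      rw [Finset.sum_congr rfl h5]
      have h6 := sum_ind' R N hR (fun _ => True)
      simpa using h6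
    rw [h4]
    simp
  rw [h2] at h1
  -- Cauchy-Schwarz
  set W := R.image (fun n => n % q) with hWdef
  have hWr : W ⊆ range q := by
    intro r hr
    rw [hWdef, mem_image] at hr
    obtain ⟨n, -, rfl⟩ := hr
    exact mem_range.2 (Nat.mod_lt _ hq.pos)
  have h7 : (R.card : ℝ) = ∑ r ∈ W, ((R.filter (fun n => n % q = r)).card : ℝ) := by
    have := Finset.card_eq_sum_card_image (fun n => n % q) R
    exact_mod_cast this
  have h8 : (R.card : ℝ) ^ 2 ≤ W.card * ∑ r ∈ W, ((R.filter (fun n => n % q = r)).card : ℝ) ^ 2 := by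
    rw [h7]
    exact sq_sum_le_card_mul_sum_sq
  have h9 : ∑ r ∈ W, ((R.filter (fun n => n % q = r)).card : ℝ) ^ 2 ≤
      ∑ r ∈ range q, ‖∑ n ∈ (Icc 1 N).filter (fun n => n % q = r), ind R n‖ ^ 2 := by
    calc ∑ r ∈ W, ((R.filter (fun n => n % q = r)).card : ℝ) ^ 2
        = ∑ r ∈ W, ‖∑ n ∈ (Icc 1 N).filter (fun n => n % q = r), ind R n‖ ^ 2 := by
          refine Finset.sum_congr rfl fun r _ => ?_
          rw [sum_ind' R N hR (fun n => n % q = r)]
          simp
      _ ≤ _ := Finset.sum_le_sum_of_subset_of_nonneg hWr fun _ _ _ => by positivity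
  set SS := ∑ r ∈ range q, ‖∑ n ∈ (Icc 1 N).filter (fun n => n % q = r), ind R n‖ ^ 2 with hSS
  have hq0 : (0 : ℝ) < q := by exact_mod_cast hq.pos
  have hSS0 : 0 ≤ SS := Finset.sum_nonneg fun _ _ => by positivity
  have hW2 : (2 : ℝ) * W.card ≤ q := by exact_mod_cast hW
  have h10 : (R.card : ℝ) ^ 2 ≤ W.card * SS :=
    h8.trans (mul_le_mul_of_nonneg_left h9 (by positivity))
  have h11 : 2 * (R.card : ℝ) ^ 2 ≤ q * SS := by nlinarith
  linarith

/-- few primes at which `R` meets at most half of the classes -/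
lemma bad_primes (R : Finset ℕ) (N Q : ℕ) (hR : R ⊆ Icc 1 N) :
    ((((Ioc Q (2 * Q)).filter (fun q => q.Prime ∧ 2 * (R.image (fun n => n % q)).card ≤ q)).card : ℝ)) *
      R.card ≤ 6 * (N + (2 * Q : ℝ) ^ 2) := by
  classical
  set B := (Ioc Q (2 * Q)).filter (fun q => q.Prime ∧ 2 * (R.image (fun n => n % q)).card ≤ q) with hB
  rcases R.card.eq_zero_or_pos with h0 | h0
  · rw [h0]; push_cast; rw [mul_zero]; positivity
  have h1 : (B.card : ℝ) * (R.card : ℝ) ^ 2 ≤ ∑ q ∈ B, Tf N (ind R) q := by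
    rw [← nsmul_eq_mul, ← Finset.sum_const]
    apply Finset.sum_le_sum
    intro q hq
    rw [hB, mem_filter] at hq
    exact Tf_ge R N hR q hq.2.1 hq.2.2
  have h2 : ∑ q ∈ B, Tf N (ind R) q ≤ ∑ f ∈ Icc 1 (2 * Q), Tf N (ind R) f := by
    apply Finset.sum_le_sum_of_subset_of_nonneg
    · intro q hq
      rw [hB, mem_filter, mem_Ioc] at hq
      rw [mem_Icc]
      omega
    · intro f _ _
      exact Pool.Agent.Y868.TG.Tf_nonneg N (ind R) f
  have h3 := additive_large_sieve N (2 * Q) (ind R)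
  rw [sum_ind R N hR] at h3
  have h4 : (B.card : ℝ) * (R.card : ℝ) ^ 2 ≤ 6 * (N + ((2 * Q : ℕ) : ℝ) ^ 2) * R.card :=
    h1.trans (h2.trans h3)
  have h5 : (0 : ℝ) < R.card := by exact_mod_cast h0
  have h6 : (B.card : ℝ) * R.card * R.card ≤ 6 * (N + (2 * Q : ℝ) ^ 2) * R.card := by
    push_cast at h4
    nlinarith
  exact le_of_mul_le_mul_right h6 h5

/-- if `R` meets more than half of the classes, every class contains a sum of two elements -/
lemma two_sum (R : Finset ℕ) (q : ℕ) (hq : 0 < q) (hW : q < 2 * (R.image (fun n => n % q)).card) (c : ℕ) :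
    ∃ r ∈ R, ∃ r' ∈ R, r + r' ≡ c [MOD q] := by
  classical
  set W := R.image (fun n => n % q) with hWdef
  have : NeZero q := ⟨hq.ne'⟩
  set V : Finset (ZMod q) := R.image (fun n : ℕ => (n : ZMod q)) with hV
  have hcard : V.card = W.card := by
    have h1 : V.image ZMod.val = W := by
      rw [hV, hWdef, Finset.image_image]
      apply Finset.image_congr
      intro n _
      simp [ZMod.val_natCast]
    rw [← h1, Finset.card_image_of_injective _ (ZMod.val_injective q)]
  set V' : Finset (ZMod q) := V.image (fun v => (c : ZMod q) - v) with hV'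
  have hcard' : V'.card = V.card := Finset.card_image_of_injective _ (sub_right_injective)
  have hne : (V ∩ V').Nonempty := by
    rw [← Finset.card_pos]
    have h2 := Finset.card_union_add_card_inter V V'
    have h3 : (V ∪ V').card ≤ q := by
      calc (V ∪ V').card ≤ (Finset.univ : Finset (ZMod q)).card := Finset.card_le_univ _
        _ = q := by rw [Finset.card_univ, ZMod.card]
    omega
  obtain ⟨v, hv⟩ := hne
  rw [mem_inter, hV', hV] at hv
  obtain ⟨h1, h2⟩ := hv
  rw [mem_image] at h1 h2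
  obtain ⟨r, hr, rfl⟩ := h1
  obtain ⟨w, hw, h3⟩ := h2
  rw [mem_image] at hw
  obtain ⟨r', hr', rfl⟩ := hw
  refine ⟨r, hr, r', hr', ?_⟩
  rw [← ZMod.natCast_eq_natCast_iff]
  push_cast
  rw [← h3]
  ring

end Pool.Agent.K3h70.WA
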