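import Mathlib
import Pool.Agent.K3h70.WA.Core
import Pool.Agent.K3h70.WA.Mod

/-! # Few summands suffice modulo almost all primes (helper70) -/

set_option autoImplicit false

open Finset

namespace Pool.Agent.K3h70.WA

lemma Gap.mono {κ K K' x₀ : ℝ} {A : Set ℕ} (h : Gap κ K x₀ A) (hK : K ≤ K') (hx : 0 ≤ x₀) :
    Gap κ K' x₀ A := by
  intro x hx'
  obtain ⟨a, ha, h1, h2⟩ := h x hx'
  refine ⟨a, ha, le_trans ?_ h1, h2⟩
  have : 0 ≤ x ^ (1 - κ) := Real.rpow_nonneg (hx.trans hx') _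
  nlinarith

lemma Gap.mono' {κ K x₀ x₁ : ℝ} {A : Set ℕ} (h : Gap κ K x₀ A) (hx : x₀ ≤ x₁) :
    Gap κ K x₁ A := fun x hx' => h x (hx.trans hx')

/-- few steps -/
lemma steps {κ : ℝ} (hκ : 0 < κ) (hκ1 : κ < 1) {δ : ℝ} (hδ : 0 < δ) (hδ1 : δ ≤ 1) :
    ∃ s : ℕ, (1 - κ) ^ s ≤ δ ∧ (s : ℝ) ≤ (Real.log (1 / δ) + 1) / κ := by
  have hL : 0 ≤ Real.log (1 / δ) := Real.log_nonneg (by rw [le_div_iff₀ hδ]; linarith)
  refine ⟨⌈Real.log (1 / δ) / κ⌉₊, ?_, ?_⟩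
  · have h1 : 1 - κ ≤ Real.exp (-κ) := by
      have := Real.add_one_le_exp (-κ)
      linarith
    have h2 : (1 - κ) ^ ⌈Real.log (1 / δ) / κ⌉₊ ≤ Real.exp (-κ) ^ ⌈Real.log (1 / δ) / κ⌉₊ :=
      pow_le_pow_left₀ (by linarith) h1 _
    refine h2.trans ?_
    rw [← Real.exp_nat_mul]
    have h3 : Real.log (1 / δ) / κ ≤ ⌈Real.log (1 / δ) / κ⌉₊ := Nat.le_ceil _
    have h4 : Real.log (1 / δ) ≤ ⌈Real.log (1 / δ) / κ⌉₊ * κ := by
      rwa [div_le_iff₀ hκ] at h3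
    calc Real.exp (⌈Real.log (1 / δ) / κ⌉₊ * -κ) ≤ Real.exp (-Real.log (1 / δ)) := by
          apply Real.exp_le_exp.2
          linarith
      _ = δ := by
          rw [Real.exp_neg, Real.exp_log (by positivity)]
          simp
  · have h1 := Nat.ceil_lt_add_one (show 0 ≤ Real.log (1 / δ) / κ by positivity)
    have h2 : (1 : ℝ) ≤ 1 / κ := by rw [le_div_iff₀ hκ]; linarith
    calc (⌈Real.log (1 / δ) / κ⌉₊ : ℝ) ≤ Real.log (1 / δ) / κ + 1 := h1.le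
      _ ≤ Real.log (1 / δ) / κ + 1 / κ := by linarith
      _ = _ := by ring

/-- `A`-sums with at most `S` terms near every `n ≤ X` in its class modulo `q` -/
def GoodMod (A : Set ℕ) (S W X : ℝ) (q : ℕ) : Prop :=
  ∀ n : ℕ, (n : ℝ) ≤ X → ∃ l : List ℕ, (∀ a ∈ l, a ∈ A) ∧ (l.length : ℝ) ≤ S ∧
    l.sum ≡ n [MOD q] ∧ |(l.sum : ℝ) - n| ≤ W

open Classical in
theorem modular (ε : ℝ) (hε : 0 < ε) (B : ℝ) (hB : 1 ≤ B) : ∃ C : ℝ, 0 < C ∧
    ∀ κ K x₀ : ℝ, 0 < κ → κ < 1 → ∃ Q₀ : ℕ, ∀ A : Set ℕ, Gap κ K x₀ A → ∀ Q : ℕ, Q₀ ≤ Q →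
      ∀ θ : ℝ, 0 < θ → θ ≤ 1 →
        (((Ioc Q (2 * Q)).filter (fun q => q.Prime ∧
          ¬ GoodMod A (C / κ) ((Q : ℝ) ^ (1 + θ)) ((Q : ℝ) ^ B) q)).card : ℝ) ≤
            (Q : ℝ) ^ (1 - θ + ε) := by
  set η : ℝ := min (ε / 4) (1 / 4) with hη
  have hη0 : 0 < η := by rw [hη]; positivity
  have hη1 : η ≤ 1 / 4 := min_le_right _ _
  have hηε : η ≤ ε / 4 := min_le_left _ _
  refine ⟨(Real.log (2 * B) + 1) + 2 * (Real.log (1 / η) + 1), ?_, ?_⟩
  · have h1 : 0 ≤ Real.log (2 * B) := Real.log_nonneg (by linarith)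
    have h2 : 0 ≤ Real.log (1 / η) := Real.log_nonneg (by rw [le_div_iff₀ hη0]; linarith)
    linarith
  intro κ K' x₀' hκ hκ1
  set K : ℝ := max K' 1 with hKdef
  set x₀ : ℝ := max x₀' 1 with hxdef
  have hK : 1 ≤ K := le_max_right _ _
  have hx₀ : 1 ≤ x₀ := le_max_right _ _
  have hK0 : 0 < K := by linarith
  obtain ⟨s, hs1, hs2⟩ := steps hκ hκ1 hη0 (by linarith)
  obtain ⟨t, ht1, ht2⟩ := steps hκ hκ1 (show 0 < 1 / (2 * B) by positivity)
    (by rw [div_le_one (by linarith)]; linarith)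
  rw [one_div_one_div] at ht2
  obtain ⟨c, hc, N₀, hcount⟩ := count (x₀ := x₀) hκ hκ1 hK s
  -- large `Q`
  have hQ : ∃ Q₀ : ℕ, ∀ Q : ℕ, Q₀ ≤ Q → 4 * N₀ ≤ Q ∧ 4 * x₀ ≤ Q ∧ 4 ≤ (Q : ℝ) ∧
      216 / c ≤ (Q : ℝ) ^ (ε / 2) ∧ 4 * K ^ (1 / κ) ≤ (Q : ℝ) ^ (1 / 2 : ℝ) ∧
      8 / c ≤ (Q : ℝ) ^ (1 / 2 : ℝ) := by
    have t1 : Filter.Tendsto (fun Q : ℕ => (Q : ℝ)) Filter.atTop Filter.atTop :=
      tendsto_natCast_atTop_atTop
    have t2 := (tendsto_rpow_atTop (show 0 < ε / 2 by positivity)).comp t1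
    have t3 := (tendsto_rpow_atTop (show (0 : ℝ) < 1 / 2 by norm_num)).comp t1
    have e := (t1.eventually_ge_atTop (4 * N₀)).and ((t1.eventually_ge_atTop (4 * x₀)).and
      ((t1.eventually_ge_atTop 4).and ((t2.eventually_ge_atTop (216 / c)).and
      ((t3.eventually_ge_atTop (4 * K ^ (1 / κ))).and (t3.eventually_ge_atTop (8 / c))))))
    obtain ⟨Q₀, hQ₀⟩ := Filter.eventually_atTop.1 e
    exact ⟨Q₀, hQ₀⟩
  obtain ⟨Q₀, hQ₀⟩ := hQ
  refine ⟨Q₀, fun A hA' Q hQQ θ hθ hθ1 => ?_⟩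
  have hA1 : Gap κ K' x₀ A := hA'.mono' (le_max_left _ _)
  have hA : Gap κ K x₀ A := hA1.mono (le_max_left _ _) (by linarith)
  obtain ⟨q1, q2, q3, q4, q5, q6⟩ := hQ₀ Q hQQ
  have hQpos : (0 : ℝ) < Q := by linarith
  have hQ1 : (1 : ℝ) ≤ Q := by linarith
  set P : ℝ := (Q : ℝ) ^ (1 + θ) with hP
  have hPQ : (Q : ℝ) ≤ P := by
    calc (Q : ℝ) = (Q : ℝ) ^ (1 : ℝ) := (Real.rpow_one _).symm
      _ ≤ P := Real.rpow_le_rpow_of_exponent_le hQ1 (by linarith)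
  have hPQ2 : P ≤ (Q : ℝ) ^ 2 := by
    rw [← Real.rpow_natCast]
    exact Real.rpow_le_rpow_of_exponent_le hQ1 (by push_cast; linarith)
  set N : ℕ := ⌊P / 2⌋₊ with hN
  have hN2 : (N : ℝ) ≤ P / 2 := Nat.floor_le (by linarith)
  have hN4 : P / 4 ≤ N := by
    have : P / 2 - 1 < N := Nat.sub_one_lt_floor _
    linarith
  have hN1 : (1 : ℝ) ≤ N := by linarith
  set R : Finset ℕ := (Icc 1 N).filter (fun m => Rep A s m) with hR
  have hRN : R ⊆ Icc 1 N := filter_subset _ _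
  -- the size of `R`
  have hRcnt : cnt A s N ≤ R.card + 1 := by
    unfold cnt
    rw [Nat.floor_natCast]
    calc ((range (N + 1)).filter (fun m => Rep A s m)).card ≤ (insert 0 R).card := by
          apply Finset.card_le_card
          intro m hm
          rw [mem_filter, mem_range] at hm
          rw [mem_insert]
          rcases Nat.eq_zero_or_pos m with h | h
          · exact Or.inl h
          · right
            rw [hR, mem_filter, mem_Icc]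
            exact ⟨⟨h, by omega⟩, hm.2⟩
      _ ≤ R.card + 1 := Finset.card_insert_le _ _
  have hR1 : c / 8 * (Q : ℝ) ^ (1 + θ - 2 * η) ≤ R.card := by
    have h1 : c * (N : ℝ) ^ (1 - (1 - κ) ^ s) ≤ cnt A s N := hcount A hA N (by linarith)
    have h2 : (N : ℝ) ^ (1 - η) ≤ (N : ℝ) ^ (1 - (1 - κ) ^ s) :=
      Real.rpow_le_rpow_of_exponent_le hN1 (by linarith)
    have h3 : (P / 4) ^ (1 - η) ≤ (N : ℝ) ^ (1 - η) :=
      Real.rpow_le_rpow (by linarith) hN4 (by linarith)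
    have h4 : 1 / 4 * (Q : ℝ) ^ (1 + θ - 2 * η) ≤ (P / 4) ^ (1 - η) := by
      rw [Real.div_rpow (by linarith) (by norm_num), hP, ← Real.rpow_mul hQpos.le,
        div_eq_inv_mul _ ((4 : ℝ) ^ (1 - η)), one_div]
      apply mul_le_mul
      · apply inv_anti₀ (by positivity)
        calc (4 : ℝ) ^ (1 - η) ≤ 4 ^ (1 : ℝ) :=
              Real.rpow_le_rpow_of_exponent_le (by norm_num) (by linarith)
          _ = 4 := Real.rpow_one _
      · apply Real.rpow_le_rpow_of_exponent_le hQ1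
        nlinarith
      · positivity
      · positivity
    have h5 : (8 : ℝ) / c ≤ (Q : ℝ) ^ (1 + θ - 2 * η) := by
      refine q6.trans (Real.rpow_le_rpow_of_exponent_le hQ1 ?_)
      linarith
    have h6 : (cnt A s N : ℝ) ≤ R.card + 1 := by exact_mod_cast hRcnt
    have h7 : c * (1 / 4 * (Q : ℝ) ^ (1 + θ - 2 * η)) ≤ cnt A s N := by
      refine le_trans ?_ h1
      exact mul_le_mul_of_nonneg_left (h4.trans (h3.trans h2)) hc.le
    rw [div_le_iff₀ hc] at h5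
    nlinarith
  have hR0 : 0 < (R.card : ℝ) := lt_of_lt_of_le (by positivity) hR1
  -- good primes
  have hgood : ∀ q ∈ Ioc Q (2 * Q), q.Prime → q < 2 * (R.image (fun n => n % q)).card →
      GoodMod A (((Real.log (2 * B) + 1) + 2 * (Real.log (1 / η) + 1)) / κ) P ((Q : ℝ) ^ B) q := by
    intro q _ hqp hW n hn
    obtain ⟨u, ⟨lu, hlu1, hlu2, hlu3⟩, hun, hu⟩ := greedy hκ hκ1.le hK hA N (by linarith)
      (by linarith) n t
    have hu' : (n : ℝ) - u ≤ N := by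
      rcases hu with h | h
      · exact h
      · refine h.trans ?_
        have h1 : K ^ ((1 - (1 - κ) ^ t) / κ) ≤ K ^ (1 / κ) := by
          apply Real.rpow_le_rpow_of_exponent_le hK
          gcongr
          have : 0 ≤ (1 - κ) ^ t := pow_nonneg (by linarith) _
          linarith
        have h2 : (n : ℝ) ^ ((1 - κ) ^ t) ≤ (Q : ℝ) ^ (1 / 2 : ℝ) := by
          have h3 : 0 ≤ (1 - κ) ^ t := pow_nonneg (by linarith) _
          calc (n : ℝ) ^ ((1 - κ) ^ t) ≤ ((Q : ℝ) ^ B) ^ ((1 - κ) ^ t) :=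
                Real.rpow_le_rpow (by positivity) hn h3
            _ = (Q : ℝ) ^ (B * (1 - κ) ^ t) := by rw [← Real.rpow_mul hQpos.le]
            _ ≤ (Q : ℝ) ^ (1 / 2 : ℝ) := by
                apply Real.rpow_le_rpow_of_exponent_le hQ1
                calc B * (1 - κ) ^ t ≤ B * (1 / (2 * B)) :=
                      mul_le_mul_of_nonneg_left ht1 (by linarith)
                  _ = 1 / 2 := by field_simp
        have h4 : (Q : ℝ) ^ (1 / 2 : ℝ) * (Q : ℝ) ^ (1 / 2 : ℝ) = Q := by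
          rw [← Real.rpow_add hQpos]; norm_num
        have h5 : 0 < K ^ (1 / κ) := Real.rpow_pos_of_pos hK0 _
        have h6 : 0 < (Q : ℝ) ^ (1 / 2 : ℝ) := Real.rpow_pos_of_pos hQpos _
        calc K ^ ((1 - (1 - κ) ^ t) / κ) * (n : ℝ) ^ ((1 - κ) ^ t)
            ≤ K ^ (1 / κ) * (Q : ℝ) ^ (1 / 2 : ℝ) :=
              mul_le_mul h1 h2 (by positivity) h5.le
          _ ≤ (Q : ℝ) / 4 := by nlinarith
          _ ≤ N := by linarith
    obtain ⟨r, hr, r', hr', hmod⟩ := two_sum R q hqp.pos hW (n - u)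
    rw [hR, mem_filter, mem_Icc] at hr hr'
    obtain ⟨⟨-, hrN⟩, lr, hlr1, hlr2, hlr3⟩ := hr
    obtain ⟨⟨-, hrN'⟩, lr', hlr1', hlr2', hlr3'⟩ := hr'
    refine ⟨lu ++ (lr ++ lr'), ?_, ?_, ?_, ?_⟩
    · intro a ha
      rw [List.mem_append, List.mem_append] at ha
      rcases ha with h | h | h
      · exact hlu1 a h
      · exact hlr1 a h
      · exact hlr1' a h
    · have h1 : (lu ++ (lr ++ lr')).length ≤ t + 2 * s := by
        rw [List.length_append, List.length_append]; omega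
      have h2 : ((lu ++ (lr ++ lr')).length : ℝ) ≤ t + 2 * s := by exact_mod_cast h1
      rw [add_div, mul_div_assoc]
      linarith
    · rw [List.sum_append, List.sum_append, hlu3, hlr3, hlr3']
      have h1 : u + (r + r') ≡ u + (n - u) [MOD q] := hmod.add_left u
      have h2 : u + (n - u) = n := by omega
      rwa [h2] at h1
    · rw [List.sum_append, List.sum_append, hlu3, hlr3, hlr3']
      push_cast
      have h1 : (r : ℝ) ≤ N := by exact_mod_cast hrN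
      have h2 : (r' : ℝ) ≤ N := by exact_mod_cast hrN'
      have h3 : (0 : ℝ) ≤ r := by positivity
      have h4 : (0 : ℝ) ≤ r' := by positivity
      have h5 : (u : ℝ) ≤ n := by exact_mod_cast hun
      rw [abs_le]
      constructor <;> linarith
  -- count the bad ones
  have hsub : ((Ioc Q (2 * Q)).filter (fun q => q.Prime ∧
      ¬ GoodMod A (((Real.log (2 * B) + 1) + 2 * (Real.log (1 / η) + 1)) / κ) P
        ((Q : ℝ) ^ B) q)).card ≤
      ((Ioc Q (2 * Q)).filter (fun q => q.Prime ∧ 2 * (R.image (fun n => n % q)).card ≤ q)).card := by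
    apply Finset.card_le_card
    intro q hq
    rw [mem_filter] at hq ⊢
    refine ⟨hq.1, hq.2.1, ?_⟩
    by_contra h
    exact hq.2.2 (hgood q hq.1 hq.2.1 (by omega))
  have hbad := bad_primes R N Q hRN
  set b : ℕ := ((Ioc Q (2 * Q)).filter
    (fun q => q.Prime ∧ 2 * (R.image (fun n => n % q)).card ≤ q)).card with hb
  have hsub' : (((Ioc Q (2 * Q)).filter (fun q => q.Prime ∧
      ¬ GoodMod A (((Real.log (2 * B) + 1) + 2 * (Real.log (1 / η) + 1)) / κ) P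
        ((Q : ℝ) ^ B) q)).card : ℝ) ≤ b := by exact_mod_cast hsub
  refine hsub'.trans ?_
  have h1 : (b : ℝ) * R.card ≤ 27 * (Q : ℝ) ^ 2 := by nlinarith
  have h2 : (b : ℝ) * (c / 8 * (Q : ℝ) ^ (1 + θ - 2 * η)) ≤ 27 * (Q : ℝ) ^ 2 :=
    (mul_le_mul_of_nonneg_left hR1 (by positivity)).trans h1
  have h3 : 27 * (Q : ℝ) ^ 2 ≤ (Q : ℝ) ^ (1 - θ + ε) * (c / 8 * (Q : ℝ) ^ (1 + θ - 2 * η)) := by
    have h4 : (Q : ℝ) ^ (1 - θ + ε) * (Q : ℝ) ^ (1 + θ - 2 * η) =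
        (Q : ℝ) ^ 2 * (Q : ℝ) ^ (ε - 2 * η) := by
      rw [← Real.rpow_natCast, ← Real.rpow_add hQpos, ← Real.rpow_add hQpos]
      congr 1
      push_cast
      ring
    have h5 : 216 / c ≤ (Q : ℝ) ^ (ε - 2 * η) :=
      q4.trans (Real.rpow_le_rpow_of_exponent_le hQ1 (by linarith))
    rw [div_le_iff₀ hc] at h5
    have h6 : (0 : ℝ) < (Q : ℝ) ^ 2 := by positivity
    calc 27 * (Q : ℝ) ^ 2 ≤ (Q : ℝ) ^ 2 * ((Q : ℝ) ^ (ε - 2 * η) * c) / 8 := by nlinarith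
      _ = ((Q : ℝ) ^ (1 - θ + ε) * (Q : ℝ) ^ (1 + θ - 2 * η)) * c / 8 := by rw [h4]; ring
      _ = _ := by ring
  exact le_of_mul_le_mul_right (h2.trans h3) (by positivity)

end Pool.Agent.K3h70.WA
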