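import Mathlib
import Pool.Agent.K3h70.WA.Core

/-! # The `k`-th powers have gaps of power type (helper70) -/

set_option autoImplicit false

open Finset

namespace Pool.Agent.K3h70.WA

/-- the set of the `k`-th powers of the natural numbers -/
def powers (k : ℕ) : Set ℕ := {a | ∃ x : ℕ, a = x ^ k}

lemma succ_pow_sub (k y : ℕ) : (y + 1) ^ (k + 1) ≤ y ^ (k + 1) + (k + 1) * (y + 1) ^ k := by
  induction k with
  | zero => simp
  | succ k ih =>
    calc (y + 1) ^ (k + 1 + 1) = (y + 1) ^ (k + 1) * (y + 1) := pow_succ _ _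
      _ = (y + 1) ^ (k + 1) * y + (y + 1) ^ (k + 1) := by ring
      _ ≤ (y ^ (k + 1) + (k + 1) * (y + 1) ^ k) * y + (y + 1) ^ (k + 1) := by gcongr
      _ = y ^ (k + 1 + 1) + (k + 1) * ((y + 1) ^ k * y) + (y + 1) ^ (k + 1) := by ring
      _ ≤ y ^ (k + 1 + 1) + (k + 1) * ((y + 1) ^ k * (y + 1)) + (y + 1) ^ (k + 1) := by
          gcongr
          omega
      _ = y ^ (k + 1 + 1) + (k + 1 + 1) * (y + 1) ^ (k + 1) := by ring

lemma gap_powers (k : ℕ) (hk : 2 ≤ k) : Gap (1 / (k : ℝ)) ((k : ℝ) * 2 ^ (k - 1)) 1 (powers k) := by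
  intro x hx
  have hx0 : 0 ≤ x := by linarith
  have hkR : (0 : ℝ) < k := by exact_mod_cast (by omega : 0 < k)
  set z : ℝ := x ^ (1 / (k : ℝ)) with hz
  have hz1 : 1 ≤ z := Real.one_le_rpow hx (by positivity)
  have hzk : z ^ k = x := by
    rw [hz, ← Real.rpow_natCast, ← Real.rpow_mul hx0]
    rw [one_div, inv_mul_cancel₀ hkR.ne', Real.rpow_one]
  set y : ℕ := ⌊z⌋₊ with hy
  have hyz : (y : ℝ) ≤ z := Nat.floor_le (by linarith)
  have hy1 : 1 ≤ y := Nat.le_floor (by simpa using hz1)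
  have hzy : z < y + 1 := Nat.lt_floor_add_one z
  refine ⟨y ^ k, ⟨y, rfl⟩, ?_, ?_⟩
  · have h1 : x ≤ ((y : ℝ) + 1) ^ k := by
      rw [← hzk]; exact pow_le_pow_left₀ (by linarith) hzy.le _
    obtain ⟨j, rfl⟩ : ∃ j, k = j + 1 := ⟨k - 1, by omega⟩
    have h2 : ((y : ℝ) + 1) ^ (j + 1) ≤ (y : ℝ) ^ (j + 1) + (j + 1) * ((y : ℝ) + 1) ^ j := by
      exact_mod_cast succ_pow_sub j y
    have h3 : ((y : ℝ) + 1) ^ j ≤ (2 * z) ^ j := by
      apply pow_le_pow_left₀ (by positivity)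
      have : (1 : ℝ) ≤ y := by exact_mod_cast hy1
      linarith
    have h4 : x ^ (1 - 1 / ((j + 1 : ℕ) : ℝ)) = z ^ j := by
      rw [hz, ← Real.rpow_natCast, ← Real.rpow_mul hx0]
      congr 1
      push_cast
      field_simp
      ring
    rw [h4]
    push_cast
    have h5 : ((j : ℝ) + 1) * ((y : ℝ) + 1) ^ j ≤ (j + 1) * (2 * z) ^ j :=
      mul_le_mul_of_nonneg_left h3 (by positivity)
    rw [mul_pow] at h5
    linarith
  · push_cast
    rw [← hzk]
    exact pow_le_pow_left₀ (by positivity) hyz _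

lemma powers_list (k : ℕ) (l : List ℕ) (hl : ∀ a ∈ l, a ∈ powers k) :
    ∃ l' : List ℕ, l = l'.map (fun x => x ^ k) := by
  induction l with
  | nil => exact ⟨[], rfl⟩
  | cons a l ih =>
    obtain ⟨l', h⟩ := ih (fun b hb => hl b (by simp [hb]))
    obtain ⟨x, hx⟩ := hl a (by simp)
    exact ⟨x :: l', by rw [List.map_cons, ← h, hx]⟩

end Pool.Agent.K3h70.WA
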